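import Pool.Agent.Y636.SM.Short
import Pool.Agent.H648R3.SMP.NPMem

/-!
# The subpower membership problem is in NP if some power of the semigroup is completely regular
-/

namespace Pool.Agent.Y636.SM

open Pool.Agent.NPC Pool.Agent.NPC.CL Pool.Agent.H648R3.SMP Pool.Agent.NPC.SMP648

theorem foldl_pw {S : Type} [Semigroup S] (a : S) (l : List S) :
    Pw (Set.univ : Set S) l.length (l.foldl (· * ·) a) := by
  induction l using List.reverseRecOn with
  | nil => exact Set.mem_univ a
  | append_singleton l b ih =>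
    rw [List.length_append, List.foldl_append]
    exact ⟨_, b, ih, Set.mem_univ b, rfl⟩

theorem pw_foldl {S : Type} [Semigroup S] : ∀ {ℓ : ℕ} {x : S}, Pw (Set.univ : Set S) ℓ x →
    ∃ (a : S) (l : List S), l.length = ℓ ∧ x = l.foldl (· * ·) a := by
  intro ℓ
  induction ℓ with
  | zero => intro x _; exact ⟨x, [], rfl, rfl⟩
  | succ ℓ ih =>
    rintro x ⟨y, b, hy, _, rfl⟩
    obtain ⟨a, l, hl, rfl⟩ := ih hy
    exact ⟨a, l ++ [b], by rw [List.length_append, hl]; rfl, by rw [List.foldl_append]; rfl⟩

/-- all products of more than `r` elements are completely regular -/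
theorem power_of {S : Type} [Semigroup S] {r : ℕ}
    (hS : ∀ (a : S) (l : List S), r ≤ l.length → CR (l.foldl (· * ·) a)) :
    ∀ a ∈ power S r, CR a := by
  rintro x ⟨ℓ, hℓ, hx⟩
  obtain ⟨a, l, rfl, rfl⟩ := pw_foldl hx
  exact hS a l hℓ

/-- membership in `NP` from short programs -/
theorem smp_inNPP_of {S : Type} [Semigroup S] [TEnc S] [Finite S]
    (hS : ShortPrograms S) : InNPP (SMP S) := by
  classical
  have : Fintype S := Fintype.ofFinite S
  let _ : TDec S := finDec
  obtain ⟨p, hp⟩ := hS
  obtain ⟨c, hc⟩ : ∃ c, ∀ s : S, sz s ≤ c :=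
    ⟨Finset.univ.sup (fun s : S => sz s), fun s => Finset.le_sup (f := fun s : S => sz s)
      (Finset.mem_univ s)⟩
  refine inNPP_of (β := List (List S)) poly_verify
    (p * (Polynomial.X * Polynomial.C (c + 1) + 2) + 1) ?_
  rintro ⟨⟨n, A⟩, b⟩
  constructor
  · rintro ⟨hA, w, hw, hmem⟩
    simp only at hA w hw hmem
    obtain ⟨L, hL, hLc, hwL⟩ := hp n _ w hmem
    refine ⟨L.map List.ofFn, ?_, ?_⟩
    · have e1 : ∀ l ∈ L.map (List.ofFn (n := n) (α := S)), sz l ≤ n * (c + 1) + 1 := by
        intro l hl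
        obtain ⟨a, _, rfl⟩ := List.mem_map.1 hl
        have := sz_le_length_mul (List.ofFn a) c (fun s _ => hc s)
        rwa [List.length_ofFn] at this
      have e2 := sz_le_length_mul _ _ e1
      rw [List.length_map] at e2
      have e3 : n ≤ sz ((n, A), b) := by
        have e4 := length_lt_sz b
        have e5 : b.length = n := by rw [hw, List.length_ofFn]
        rw [sz_pair]
        omega
      refine e2.trans ?_
      simp only [Polynomial.eval_add, Polynomial.eval_mul, Polynomial.eval_X, Polynomial.eval_C,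
        Polynomial.eval_ofNat, Polynomial.eval_one]
      have e6 : p.eval n ≤ p.eval (sz ((n, A), b)) := eval_mono p e3
      have e7 : n * (c + 1) + 1 + 1 ≤ sz ((n, A), b) * (c + 1) + 2 := by
        have := Nat.mul_le_mul_right (c + 1) e3
        omega
      exact Nat.add_le_add_right (Nat.mul_le_mul (hLc.trans e6) e7) 1
    · simp only [verify, Bool.and_eq_true, List.all_eq_true, decide_eq_true_eq]
      refine ⟨hA, ?_, ?_, (cstep_iff A L).2 hL⟩
      · intro l hl
        obtain ⟨a, _, rfl⟩ := List.mem_map.1 hl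
        rw [List.length_ofFn]
      · rw [hw, List.any_eq_true]
        exact ⟨_, List.mem_map_of_mem hwL, by simp⟩
  · rintro ⟨L, _, hL⟩
    simp only [verify, Bool.and_eq_true, List.all_eq_true, decide_eq_true_eq] at hL
    obtain ⟨hA, hlen, hb, hchk⟩ := hL
    rw [List.any_eq_true] at hb
    obtain ⟨b', hb, hb'⟩ := hb
    rw [decide_eq_true_eq] at hb'
    subst hb'
    obtain ⟨L', rfl⟩ := exists_map_ofFn L hlen
    have h1 := (cstep_iff A L').1 hchk
    obtain ⟨w, hw, hwb⟩ := List.mem_map.1 hb
    refine ⟨hA, w, hwb.symm, ?_⟩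
    exact Slp.closure (T := (Subsemigroup.closure {a : Fin n → S | List.ofFn a ∈ A} :
      Set (Fin n → S))) Subsemigroup.subset_closure (fun x hx y hy => mul_mem hx hy) h1 w hw

end Pool.Agent.Y636.SM
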