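import Pool.Agent.H648R3.SMP.Main

/-!
# Short straight-line programs in subpowers: semigroups with a completely regular power
-/

namespace Pool.Agent.Y636.SM

open Pool.Agent.H648R3.SMP

/-- `x` is a product of `ℓ + 1` elements of `A`. -/
def Pw {M : Type} [Mul M] (A : Set M) : ℕ → M → Prop
  | 0, x => x ∈ A
  | ℓ + 1, x => ∃ y a, Pw A ℓ y ∧ a ∈ A ∧ x = y * a

section

variable {M : Type} [Semigroup M] {A : Set M}

theorem Pw.mul {i : ℕ} {u : M} (hu : Pw A i u) : ∀ {j : ℕ} {v : M}, Pw A j v →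
    Pw A (i + j + 1) (u * v) := by
  intro j
  induction j with
  | zero => intro v hv; exact ⟨u, v, hu, hv, rfl⟩
  | succ j ih =>
    rintro v ⟨y, a, hy, ha, rfl⟩
    exact ⟨u * y, a, ih hy, ha, (mul_assoc u y a).symm⟩

theorem Pw.split {i : ℕ} : ∀ {j : ℕ} {w : M}, Pw A (i + j + 1) w →
    ∃ u v, Pw A i u ∧ Pw A j v ∧ w = u * v := by
  intro j
  induction j with
  | zero => rintro w ⟨y, a, hy, ha, rfl⟩; exact ⟨y, a, hy, ha, rfl⟩
  | succ j ih =>
    rintro w ⟨y, a, hy, ha, rfl⟩
    obtain ⟨u, v, hu, hv, rfl⟩ := ih hy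
    exact ⟨u, v * a, hu, ⟨v, a, hv, ha, rfl⟩, mul_assoc u v a⟩

theorem Pw.reach : ∀ {ℓ : ℕ} {x : M}, Pw A ℓ x → Reach A (2 * ℓ + 1) x := by
  intro ℓ
  induction ℓ with
  | zero => intro x hx; exact Reach.of_mem hx
  | succ ℓ ih =>
    rintro x ⟨y, a, hy, ha, rfl⟩
    have h := Within.mul (c := 2 * ℓ + 1) (d := 1) (ih hy) (Reach.of_mem ha)
    exact Within.mono h (by omega)

theorem exists_pw {w : M} (hw : w ∈ Subsemigroup.closure A) : ∃ ℓ, Pw A ℓ w := by
  induction hw using Subsemigroup.closure_induction with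
  | mem x hx => exact ⟨0, hx⟩
  | mul x y _ _ hx hy =>
    obtain ⟨i, hi⟩ := hx
    obtain ⟨j, hj⟩ := hy
    exact ⟨_, hi.mul hj⟩

/-- the products of at least `r + 1` and at most `2 r + 1` elements -/
def Blk (A : Set M) (r : ℕ) : Set M := {b | ∃ j, r ≤ j ∧ j ≤ 2 * r ∧ Pw A j b}

theorem Pw.blocks (r : ℕ) : ∀ (ℓ : ℕ) (w : M), r ≤ ℓ → Pw A ℓ w →
    w ∈ Subsemigroup.closure (Blk A r) := by
  intro ℓ
  induction ℓ using Nat.strong_induction_on with
  | _ ℓ ih =>
    intro w hr hw
    rcases Nat.lt_or_ge (2 * r) ℓ with h | h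
    · obtain ⟨i, hi⟩ : ∃ i, ℓ = i + r + 1 := ⟨ℓ - r - 1, by omega⟩
      subst hi
      obtain ⟨u, v, hu, hv, rfl⟩ := hw.split
      exact mul_mem (ih i (by omega) u (by omega) hu)
        (Subsemigroup.subset_closure ⟨r, le_rfl, by omega, hv⟩)
    · exact Subsemigroup.subset_closure ⟨ℓ, hr, h, hw⟩

/-- replacing the elements of `B` by programs over `A` -/
theorem slp_replace {B : Set M} {c : ℕ} (hB : ∀ b ∈ B, Reach A c b) : ∀ L : List M, Slp B L →
    ∃ L' : List M, Slp A L' ∧ L'.length ≤ (c + 1) * L.length ∧ ∀ x ∈ L, x ∈ L' := by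
  intro L
  induction L with
  | nil => intro _; exact ⟨[], trivial, by simp, by simp⟩
  | cons x L ih =>
    rintro ⟨hL, hx⟩
    obtain ⟨L', h1, h2, h3⟩ := ih hL
    rcases hx with hx | ⟨y, hy, z, hz, rfl⟩
    · obtain ⟨L₁, h4, h5, h6⟩ := Within.of_reach (hB x hx) h1
      refine ⟨L₁ ++ L', h4, ?_, ?_⟩
      · rw [List.length_append, List.length_cons, Nat.mul_succ]
        omega
      · intro u hu
        rcases List.mem_cons.1 hu with rfl | hu
        · exact h6
        · exact List.mem_append_right _ (h3 u hu)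
    · refine ⟨y * z :: L', ⟨h1, Or.inr ⟨y, h3 y hy, z, h3 z hz, rfl⟩⟩, ?_, ?_⟩
      · rw [List.length_cons, List.length_cons, Nat.mul_succ]
        omega
      · intro u hu
        rcases List.mem_cons.1 hu with rfl | hu
        · exact List.mem_cons_self
        · exact List.mem_cons_of_mem _ (h3 u hu)

/-- the ideal of all products of at least `r + 1` elements -/
def power (M : Type) [Semigroup M] (r : ℕ) : Subsemigroup M where
  carrier := {x | ∃ ℓ, r ≤ ℓ ∧ Pw (Set.univ : Set M) ℓ x}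
  mul_mem' := by
    rintro x y ⟨i, hi, hx⟩ ⟨j, hj, hy⟩
    exact ⟨i + j + 1, by omega, hx.mul hy⟩

theorem power_left {r : ℕ} {x : M} (hx : x ∈ power M r) (y : M) : y * x ∈ power M r := by
  obtain ⟨i, hi, hx⟩ := hx
  have hy : Pw (Set.univ : Set M) 0 y := Set.mem_univ y
  exact ⟨0 + i + 1, by omega, hy.mul hx⟩

theorem power_right {r : ℕ} {x : M} (hx : x ∈ power M r) (y : M) : x * y ∈ power M r := by
  obtain ⟨i, hi, hx⟩ := hx
  exact ⟨i + 0 + 1, by omega, hx.mul (j := 0) (Set.mem_univ y)⟩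

end

/-- The element `a` is completely regular: it lies in a subgroup. -/
def CR {S : Type} [Semigroup S] (a : S) : Prop := ∃ x : S, a = a * x * a ∧ a * x = x * a

theorem power_cr {S : Type} [Semigroup S] {r : ℕ} (hS : ∀ a ∈ power S r, CR a) :
    ∀ a : power S r, ∃ x : power S r, a = a * x * a ∧ a * x = x * a := by
  rintro ⟨a, ha⟩
  obtain ⟨x, h1, h2⟩ := hS a ha
  have h3 : x * a * x ∈ power S r := power_right (power_left ha x) x
  have h4 : a * (x * a * x) = a * x := by
    calc a * (x * a * x) = (a * x * a) * x := by simp only [mul_assoc]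
      _ = a * x := by rw [← h1]
  have h5 : (x * a * x) * a = x * a := by
    calc (x * a * x) * a = x * (a * x * a) := by simp only [mul_assoc]
      _ = x * a := by rw [← h1]
  refine ⟨⟨x * a * x, h3⟩, Subtype.ext ?_, Subtype.ext ?_⟩
  · change a = a * (x * a * x) * a
    rw [h4]
    exact h1
  · change a * (x * a * x) = (x * a * x) * a
    rw [h4, h5, h2]

theorem pw_apply {S : Type} [Semigroup S] {n : ℕ} {A : Set (Fin n → S)} (i : Fin n) :
    ∀ {ℓ : ℕ} {x : Fin n → S}, Pw A ℓ x → Pw (Set.univ : Set S) ℓ (x i) := by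
  intro ℓ
  induction ℓ with
  | zero => intro x _; exact Set.mem_univ _
  | succ ℓ ih =>
    rintro x ⟨y, a, hy, _, rfl⟩
    exact ⟨y i, a i, ih hy, Set.mem_univ _, rfl⟩

/-- All elements of subsemigroups of powers `S ^ n` of `S` are computed from the generators by
straight-line programs with polynomially many (in `n`) instructions. -/
def ShortPrograms (S : Type) [Semigroup S] : Prop :=
  ∃ p : Polynomial ℕ, ∀ (n : ℕ) (A : Set (Fin n → S)) (w : Fin n → S),
    w ∈ Subsemigroup.closure A → ∃ L : List (Fin n → S), Slp A L ∧ L.length ≤ p.eval n ∧ w ∈ L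

/-- **Transfer of short programs** from `S ^ (r + 1)` (products of more than `r` factors). -/
theorem transfer (S : Type) [Semigroup S] (r : ℕ) (hS : ShortPrograms (power S r)) :
    ShortPrograms S := by
  obtain ⟨p, hp⟩ := hS
  refine ⟨Polynomial.C (4 * r + 2) * p + Polynomial.C (2 * r + 1), fun n A w hw => ?_⟩
  simp only [Polynomial.eval_add, Polynomial.eval_mul, Polynomial.eval_C]
  obtain ⟨ℓ, hℓ⟩ := exists_pw hw
  rcases Nat.lt_or_ge ℓ r with h | h
  · obtain ⟨L, h1, h2, h3⟩ := hℓ.reach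
    rw [List.append_nil] at h1 h3
    exact ⟨L, h1, by omega, h3⟩
  · have h1 := hℓ.blocks r ℓ w h
    set φ : (Fin n → power S r) → Fin n → S := fun x i => (x i : S) with hφ
    set B' : Set (Fin n → power S r) := {b | φ b ∈ Blk A r} with hB'
    have hmem : ∀ x ∈ Blk A r, ∀ i, x i ∈ power S r := by
      rintro x ⟨j, hj, _, hx⟩ i
      exact ⟨j, hj, pw_apply i hx⟩
    have key : ∀ u ∈ Subsemigroup.closure (Blk A r),
        ∃ w' : Fin n → power S r, w' ∈ Subsemigroup.closure B' ∧ φ w' = u := by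
      intro u hu
      induction hu using Subsemigroup.closure_induction with
      | mem x hx =>
        exact ⟨fun i => ⟨x i, hmem x hx i⟩, Subsemigroup.subset_closure hx, rfl⟩
      | mul x y _ _ hx hy =>
        obtain ⟨x', hx', rfl⟩ := hx
        obtain ⟨y', hy', rfl⟩ := hy
        exact ⟨x' * y', mul_mem hx' hy', rfl⟩
    obtain ⟨w', hw', hww'⟩ := key w h1
    obtain ⟨L, hL1, hL2, hL3⟩ := hp n B' w' hw'
    have hmap : ∀ L : List (Fin n → power S r), Slp B' L → Slp (Blk A r) (L.map φ) := by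
      intro L
      induction L with
      | nil => intro _; trivial
      | cons x L ih =>
        rintro ⟨h2, h3⟩
        refine ⟨ih h2, ?_⟩
        rcases h3 with h3 | ⟨y, hy, z, hz, rfl⟩
        · exact Or.inl h3
        · exact Or.inr ⟨φ y, List.mem_map_of_mem hy, φ z, List.mem_map_of_mem hz, rfl⟩
    obtain ⟨L', h4, h5, h6⟩ := slp_replace (A := A) (c := 4 * r + 1) (B := Blk A r) (by
      rintro b ⟨j, _, hj, hb⟩
      exact Within.mono hb.reach (by omega)) (L.map φ) (hmap L hL1)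
    refine ⟨L', h4, ?_, h6 w ?_⟩
    · rw [List.length_map] at h5
      have h7 : (4 * r + 1 + 1) * L.length ≤ (4 * r + 2) * p.eval n :=
        Nat.mul_le_mul_left (4 * r + 2) hL2
      omega
    · rw [← hww']
      exact List.mem_map_of_mem hL3

/-- **Short programs.** -/
theorem short_programs' (S : Type) [Semigroup S] [Finite S] (r : ℕ)
    (hS : ∀ a ∈ power S r, CR a) : ShortPrograms S :=
  transfer S r (short_programs (power S r) (power_cr hS))

end Pool.Agent.Y636.SM
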